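import Pool.Agent.MNT.StmtsT

set_option autoImplicit false

namespace Pool.Agent.MNT.H50

open scoped Classical

/-- the telescoping function -/
noncomputable def Gf (L t : ℝ) : ℝ := t * (2 * t / L - 3 / 2) ^ 2

theorem Gf_nonneg (L t : ℝ) (ht : 0 ≤ t) : 0 ≤ Gf L t :=
  mul_nonneg ht (sq_nonneg _)

theorem Gf_zero (L : ℝ) : Gf L 0 = 0 := by
  simp [Gf]

theorem Gf_tele (s l r : ℝ) (h : 0 < s + l + r) :
    l * (3 * (s - r) ^ 2 + l ^ 2) / (s + l + r) ^ 2 - 3 / 4 * l =
      Gf (s + l + r) (s + l) - Gf (s + l + r) s := by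
  have h0 : s + l + r ≠ 0 := h.ne'
  unfold Gf
  field_simp
  ring

section

variable {V : Type} [Fintype V] [PartialOrder V] [OrderTop V] {T : Tree V} {G : V → Prop}
  {l s r : V → ℝ}

theorem s_nonneg (h : Res T G l s r) (v : V) : 0 ≤ s v := by
  by_cases hv : G v
  · rw [h.s_grd v hv]
  · exact (h.s_pos v hv).le

theorem r_nonneg (h : Res T G l s r) (c : V) (hc : c ≠ ⊤) : 0 ≤ r c := by
  by_cases hv : G (T.par c)
  · rw [h.r_grd c hc hv]
  · exact (h.r_pos c hc hv).le

theorem only_kid {g : ℕ} {a b : V → ℕ} (hL : Lab g T G a b) (c : V) (hG : ¬ G c)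
    (ha : a c = 2) : ∃ d, T.kids c = {d} ∧ a d = 2 := by
  have h1 := hL.sum_eq c hG
  have h2 := hL.kids_even c hG
  have hne : (T.kids c).Nonempty := by
    rw [Finset.nonempty_iff_ne_empty]
    intro h0
    rw [h0, Finset.sum_empty] at h1
    omega
  obtain ⟨d, hd⟩ := hne
  have h3 : ∑ c' ∈ T.kids c, a c' = a d + ∑ c' ∈ (T.kids c).erase d, a c' :=
    (Finset.add_sum_erase _ _ hd).symm
  have h4 : a d = 2 := by
    have := hL.a_pos d
    obtain ⟨k, hk⟩ := h2 d hd
    omega
  refine ⟨d, ?_, h4⟩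
  have h5 : (T.kids c).erase d = ∅ := by
    rw [Finset.eq_empty_iff_forall_notMem]
    intro e he
    have h6 : a e ≤ ∑ c' ∈ (T.kids c).erase d, a c' :=
      Finset.single_le_sum (f := fun c' => a c') (fun _ _ => Nat.zero_le _) he
    have := hL.a_pos e
    omega
  have h7 := Finset.insert_erase hd
  rw [h5] at h7
  rw [← h7]
  rfl

theorem kid_par {c d : V} (h : T.kids c = {d}) : d ≠ ⊤ ∧ T.par d = c := by
  have h1 : d ∈ T.kids c := by
    rw [h]
    exact Finset.mem_singleton_self d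
  simpa [Tree.kids] using h1

theorem only_kid_eq (h : Res T G l s r) {c d : V} (hG : ¬ G c) (hk : T.kids c = {d}) :
    s c = s d + l d ∧ r d = l c + r c := by
  obtain ⟨hd, hp⟩ := kid_par hk
  constructor
  · have h1 := h.s_eq c hG
    rw [hk, Finset.sum_singleton] at h1
    have h2 := inv_injective h1
    linarith
  · have h1 := h.r_eq d hd (by rw [hp]; exact hG)
    rw [hp, hk, Finset.erase_singleton, Finset.sum_empty, add_zero] at h1
    exact inv_injective h1

end

theorem lg2 : Lg2Stmt := by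
  intro g _ V _ _ _ T G a b l s r hl hL hR
  set A : Finset V := Finset.univ.filter fun c : V => c ≠ ⊤ ∧ a c = 2 with hA
  have memA : ∀ c, c ∈ A ↔ c ≠ ⊤ ∧ a c = 2 := by
    intro c
    simp [hA]
  set F : V → ℝ := fun c => Gf (s c + l c + r c) (s c + l c) with hF
  have hpos : ∀ c, c ≠ ⊤ → 0 < s c + l c + r c := by
    intro c hc
    have h1 := s_nonneg hR c
    have h2 := r_nonneg hR c hc
    have h3 := hl c hc
    linarith
  have hFn : ∀ c ∈ A, 0 ≤ F c := by
    intro c hc
    have h1 := s_nonneg hR c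
    have h3 := hl c ((memA c).mp hc).1
    exact Gf_nonneg _ _ (by linarith)
  -- the child of an ungrounded node
  have hex : ∀ c, ∃ d, (c ∈ A ∧ ¬ G c) → (T.kids c = {d} ∧ a d = 2) := by
    intro c
    by_cases hc : c ∈ A ∧ ¬ G c
    · obtain ⟨d, hd⟩ := only_kid hL c hc.2 ((memA c).mp hc.1).2
      exact ⟨d, fun _ => hd⟩
    · exact ⟨c, fun h => absurd h hc⟩
  choose dd hdd using hex
  set B : Finset V := A.filter fun c => ¬ G c with hB
  have memB : ∀ c, c ∈ B ↔ c ∈ A ∧ ¬ G c := by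
    intro c
    simp [hB]
  have hval : ∀ c ∈ B, Gf (s c + l c + r c) (s c) = F (dd c) := by
    intro c hc
    have hc' := (memB c).mp hc
    obtain ⟨hk, _⟩ := hdd c hc'
    obtain ⟨h1, h2⟩ := only_kid_eq hR hc'.2 hk
    have h3 : s c + l c + r c = s (dd c) + l (dd c) + r (dd c) := by
      rw [h1, h2]
      ring
    show Gf (s c + l c + r c) (s c) =
      Gf (s (dd c) + l (dd c) + r (dd c)) (s (dd c) + l (dd c))
    rw [h3, h1]
  have hinj : Set.InjOn dd (B : Set V) := by
    intro c hc e he hce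
    have hc' := (memB c).mp (Finset.mem_coe.mp hc)
    have he' := (memB e).mp (Finset.mem_coe.mp he)
    have h1 := (kid_par (hdd c hc').1).2
    have h2 := (kid_par (hdd e he').1).2
    rw [← h1, ← h2, hce]
  have hsub : B.image dd ⊆ A := by
    intro x hx
    obtain ⟨c, hc, rfl⟩ := Finset.mem_image.mp hx
    have hc' := (memB c).mp hc
    rw [memA]
    exact ⟨(kid_par (hdd c hc').1).1, (hdd c hc').2⟩
  have hsum1 : ∑ c ∈ A, Gf (s c + l c + r c) (s c) = ∑ c ∈ B, F (dd c) := by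
    rw [← Finset.sum_filter_add_sum_filter_not A (fun c => ¬ G c)]
    have h0 : ∑ c ∈ A with ¬ ¬ G c, Gf (s c + l c + r c) (s c) = 0 := by
      refine Finset.sum_eq_zero ?_
      intro c hc
      have hg : G c := not_not.mp (Finset.mem_filter.mp hc).2
      rw [hR.s_grd c hg, Gf_zero]
    rw [h0, add_zero]
    exact Finset.sum_congr rfl hval
  have hsum2 : ∑ c ∈ B, F (dd c) ≤ ∑ c ∈ A, F c := by
    rw [← Finset.sum_image (f := F) (s := B) (g := dd) hinj]
    exact Finset.sum_le_sum_of_subset_of_nonneg hsub fun c hc _ => hFn c hc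
  have hsum3 : ∑ c ∈ A, JJ l s r c - 3 / 4 * ∑ c ∈ A, l c =
      ∑ c ∈ A, F c - ∑ c ∈ A, Gf (s c + l c + r c) (s c) := by
    rw [Finset.mul_sum, ← Finset.sum_sub_distrib, ← Finset.sum_sub_distrib]
    refine Finset.sum_congr rfl ?_
    intro c hc
    exact Gf_tele (s c) (l c) (r c) (hpos c ((memA c).mp hc).1)
  have : 0 ≤ ∑ c ∈ A, JJ l s r c - 3 / 4 * ∑ c ∈ A, l c := by
    rw [hsum3, hsum1]
    linarith
  linarith

end Pool.Agent.MNT.H50
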