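import Pool.Agent.MNT.StmtsT

set_option autoImplicit false

namespace Pool.Agent.MNT.H50

open scoped Classical

theorem sbp : SbpStmt := by
  intro V _ _ _ T f h
  have h1 : ∑ v, h v * ∑ c ∈ T.kids v, f c = ∑ c with c ≠ ⊤, f c * h (T.par c) := by
    have e1 : ∀ v : V, h v * ∑ c ∈ T.kids v, f c
        = ∑ c ∈ (Finset.univ.filter fun c : V => c ≠ ⊤) with T.par c = v,
            f c * h (T.par c) := by
      intro v
      rw [Finset.mul_sum]
      have e2 : T.kids v = (Finset.univ.filter fun c : V => c ≠ ⊤).filter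
          fun c => T.par c = v := by
        ext c
        simp [Tree.kids]
      rw [e2]
      refine Finset.sum_congr rfl ?_
      intro c hc
      rw [(Finset.mem_filter.mp hc).2]
      ring
    rw [Finset.sum_congr rfl fun v _ => e1 v]
    exact Finset.sum_fiberwise _ _ _
  have h2 : ∑ v, h v * f v = h ⊤ * f ⊤ + ∑ c with c ≠ ⊤, f c * h c := by
    rw [← Finset.add_sum_erase Finset.univ (fun v => h v * f v) (Finset.mem_univ ⊤)]
    have e3 : (Finset.univ : Finset V).erase ⊤ = Finset.univ.filter fun c : V => c ≠ ⊤ := by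
      ext c
      simp
    rw [e3]
    refine congrArg (fun t => h ⊤ * f ⊤ + t) ?_
    refine Finset.sum_congr rfl ?_
    intro c _
    ring
  have h3 : ∑ v, h v * (f v - ∑ c ∈ T.kids v, f c)
      = ∑ v, h v * f v - ∑ v, h v * ∑ c ∈ T.kids v, f c := by
    rw [← Finset.sum_sub_distrib]
    refine Finset.sum_congr rfl ?_
    intro v _
    ring
  rw [h3, h1, h2, add_sub_assoc, ← Finset.sum_sub_distrib]
  refine congrArg (fun t => h ⊤ * f ⊤ + t) ?_
  refine Finset.sum_congr rfl ?_
  intro c _
  ring

end Pool.Agent.MNT.H50
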